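import Pool.Agent.E8helper48.D3.Solf

/-!
# The low modes
-/

set_option autoImplicit false
set_option linter.unusedSectionVars false

open MeasureTheory
open scoped ENNReal

namespace Pool.Agent.E8helper48.D3

open Pool.Agent.W761.CB Pool.Agent.E8helper48.DP Pool.Agent.E8helper48.DPN Pool.Agent.E8helper78.D3

noncomputable section

section
variable {n : ℕ} {L : ℝ} [Fact (0 < L)]

lemma chr_pr (p : Fin n → ℤ) (z : Fin n → ℝ) :
    (chrN L p (pr L z)).re = Real.cos (2 * Real.pi / L * ∑ c, (p c : ℝ) * z c) := by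
  have h1 : chrN L p (pr L z) =
      Complex.exp (((2 * Real.pi / L * ∑ c, (p c : ℝ) * z c : ℝ) : ℂ) * Complex.I) := by
    unfold chrN pr
    simp only [fourier_coe_apply]
    rw [← Complex.exp_sum]
    congr 1
    push_cast
    rw [Finset.mul_sum, Finset.sum_mul]
    refine Finset.sum_congr rfl fun c _ => ?_
    ring
  rw [h1, Complex.exp_ofReal_mul_I_re]

lemma chr_half (p : Fin n → ℤ) {R : ℝ} (x : Tor n L) (hx : tdist x 0 ≤ R)
    (hp : 2 * Real.pi * R * ∑ c, |(p c : ℝ)| ≤ L) : 1 / 2 ≤ (chrN L p x).re := by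
  have hL : 0 < L := Fact.out
  have hpi := Real.pi_pos
  obtain ⟨-, -, -, -, -, -, hrep, -⟩ := Pool.Agent.W135.CB.proof_tf n L
  obtain ⟨z, hz, rfl⟩ := hrep x
  rw [chr_pr]
  have hR : ∀ c, |z c| ≤ R := by
    intro c
    rw [(hz c).1]
    refine le_trans ?_ hx
    unfold tdist
    rw [← Real.sqrt_sq (norm_nonneg (pr L z c))]
    refine Real.sqrt_le_sqrt ?_
    have h := Finset.single_le_sum (f := fun c => ‖pr L z c - (0 : Tor n L) c‖ ^ 2)
      (fun c _ => sq_nonneg _) (Finset.mem_univ c)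
    simpa using h
  obtain ⟨θ, hθ⟩ : ∃ θ, θ = 2 * Real.pi / L * ∑ c, (p c : ℝ) * z c := ⟨_, rfl⟩
  rw [← hθ]
  have h1 : |θ| ≤ 1 := by
    rw [hθ, abs_mul, abs_of_pos (show 0 < 2 * Real.pi / L by positivity)]
    have h2 : |∑ c, (p c : ℝ) * z c| ≤ R * ∑ c, |(p c : ℝ)| := by
      refine (Finset.abs_sum_le_sum_abs _ _).trans ?_
      rw [Finset.mul_sum]
      refine Finset.sum_le_sum fun c _ => ?_
      rw [abs_mul, mul_comm]
      exact mul_le_mul_of_nonneg_right (hR c) (abs_nonneg _)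
    calc 2 * Real.pi / L * |∑ c, (p c : ℝ) * z c| ≤ 2 * Real.pi / L * (R * ∑ c, |(p c : ℝ)|) :=
          mul_le_mul_of_nonneg_left h2 (by positivity)
      _ = 2 * Real.pi * R * (∑ c, |(p c : ℝ)|) / L := by ring
      _ ≤ 1 := by
          rw [div_le_one hL]
          exact hp
  have h2 := Real.one_sub_sq_div_two_le_cos (x := θ)
  have h3 : θ ^ 2 ≤ 1 := by
    rw [← sq_abs]
    exact pow_le_one₀ (abs_nonneg _) h1
  linarith

end

theorem lowm : S_LOWM := by
  intro n L _ M R W f p hW hf hWM hf1 hWR hp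
  have hL : 0 < L := Fact.out
  have hrf : RB f := ⟨hf, 1, fun x => by
    rw [abs_of_nonneg (hf1 x).1]
    exact (hf1 x).2⟩
  have hrW : RB W := ⟨hW, M, fun x => by
    rw [abs_of_nonneg (hWM x).1]
    exact (hWM x).2⟩
  have hG := hrW.mul hrf
  have h1 : (scN (fun x => W x * f x) p).re =
      (L ^ n)⁻¹ * ∫ x, ((starRingEnd ℂ) (chrN L p x) * ((W x * f x : ℝ) : ℂ)).re := by
    have h2 := integral_re (𝕜 := ℂ) (cint hG p)
    have h3 : ∫ x, ((starRingEnd ℂ) (chrN L p x) * ((W x * f x : ℝ) : ℂ)).re =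
        (∫ x, (starRingEnd ℂ) (chrN L p x) * ((W x * f x : ℝ) : ℂ)).re := h2
    rw [h3]
    unfold scN
    have h4 : ((L : ℂ) ^ n)⁻¹ = (((L ^ n)⁻¹ : ℝ) : ℂ) := by push_cast; rfl
    rw [h4, Complex.re_ofReal_mul]
  have h2 : (∫ x, W x * f x) / 2 ≤
      ∫ x, ((starRingEnd ℂ) (chrN L p x) * ((W x * f x : ℝ) : ℂ)).re := by
    rw [← integral_div]
    refine integral_mono (hG.int.div_const 2) (cint hG p).re fun x => ?_
    simp only
    have h3 : ((starRingEnd ℂ) (chrN L p x) * ((W x * f x : ℝ) : ℂ)).re =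
        (chrN L p x).re * (W x * f x) := by
      rw [mul_comm, Complex.re_ofReal_mul, Complex.conj_re, mul_comm]
    rw [h3]
    have h0 : 0 ≤ W x * f x := mul_nonneg (hWM x).1 (hf1 x).1
    by_cases h4 : W x = 0
    · rw [h4]
      simp
    · have h5 := chr_half p x (hWR x h4) hp
      nlinarith
  have h3 := (le_abs_self _).trans (Complex.abs_re_le_norm (scN (fun x => W x * f x) p))
  rw [h1] at h3
  refine le_trans ?_ h3
  rw [mul_div_assoc]
  exact mul_le_mul_of_nonneg_left h2 (by positivity)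

end

end Pool.Agent.E8helper48.D3
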