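import Pool.Agent.E8helper78.D3.Stm
import Pool.Agent.E8helper48.DP.LNH
import Pool.Agent.E8helper48.DP.FouN

/-!
# Fourier coefficients of the solutions of the discretised scattering equation
-/

set_option autoImplicit false
set_option linter.unusedSectionVars false

open MeasureTheory
open scoped ENNReal

namespace Pool.Agent.E8helper48.D3

open Pool.Agent.W761.CB Pool.Agent.E8helper48.DP Pool.Agent.E8helper48.DPN Pool.Agent.E8helper78.D3

noncomputable section

section
variable {n : ℕ} {L : ℝ} [Fact (0 < L)] {u w : Tor n L → ℝ}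

lemma cint (h : RB u) (p : Fin n → ℤ) :
    Integrable fun y => (starRingEnd ℂ) (chrN L p y) * (u y : ℂ) := by
  obtain ⟨C, hC⟩ := h.bd
  refine BF.int ((RCLike.continuous_conj.measurable.comp ((DPF.fouN n L).1 p)).mul h.cmeas)
    (C := C) fun y => ?_
  rw [norm_mul, RCLike.norm_conj, (DPF.fouN n L).2.1, one_mul, RB.cnorm]
  exact hC y

lemma sc_add (h : RB u) (h' : RB w) (p : Fin n → ℤ) :
    scN (fun x => u x + w x) p = scN u p + scN w p := by
  unfold scN
  rw [← mul_add, ← integral_add (cint h p) (cint h' p)]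
  congr 1
  refine integral_congr_ae (Filter.Eventually.of_forall fun y => ?_)
  simp only
  push_cast
  ring

lemma sc_smul (c : ℝ) (u : Tor n L → ℝ) (p : Fin n → ℤ) :
    scN (fun x => c * u x) p = c * scN u p := by
  unfold scN
  have e : ∀ y, (starRingEnd ℂ) (chrN L p y) * ((c * u y : ℝ) : ℂ) =
      (c : ℂ) * ((starRingEnd ℂ) (chrN L p y) * (u y : ℂ)) := by
    intro y
    push_cast
    ring
  simp only [e]
  rw [integral_const_mul, mul_left_comm]

lemma sc_shift (u : Tor n L → ℝ) (a : Tor n L) (p : Fin n → ℤ) :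
    scN (fun x => u (x + a)) p = chrN L p a * scN u p := by
  unfold scN
  have e : ∀ y, (starRingEnd ℂ) (chrN L p y) * (u (y + a) : ℂ) =
      chrN L p a * ((starRingEnd ℂ) (chrN L p (y + a)) * (u (y + a) : ℂ)) := by
    intro y
    rw [(DPF.fouN n L).2.2.1, map_mul]
    have h := chr_mul DPF.fouN p a
    linear_combination -((starRingEnd ℂ) (chrN L p y) * (u (y + a) : ℂ)) * h
  simp only [e]
  rw [integral_const_mul, integral_add_right_eq_self
    (fun y => (starRingEnd ℂ) (chrN L p y) * (u y : ℂ)) a, mul_left_comm]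

lemma bes (h : RB u) (B : Finset (Fin n → ℤ)) :
    ∑ p ∈ B, ‖scN u p‖ ^ 2 ≤ (L ^ n)⁻¹ * ∫ x, u x ^ 2 := by
  have hL : 0 < L := Fact.out
  obtain ⟨g, hg⟩ : ∃ g : BF (Tor n L), g = ⟨fun x => (u x : ℂ), h.cmeas, by
    obtain ⟨C, hC⟩ := h.bd
    exact ⟨C, fun x => by rw [RB.cnorm]; exact hC x⟩⟩ := ⟨_, rfl⟩
  have h1 := er_nonneg DPF.fouN B g
  unfold er at h1
  have h2 : ‖g‖ ^ 2 = ∫ x, u x ^ 2 := by
    rw [BF.norm_sq, hg]
    refine integral_congr_ae (Filter.Eventually.of_forall fun x => ?_)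
    simp only
    rw [RB.cnorm, sq_abs]
  have h3 : ∀ p, cf g p = scN u p := by
    intro p
    rw [hg]
    rfl
  simp only [h3] at h1
  rw [h2] at h1
  rw [le_inv_mul_iff₀ (by positivity)]
  linarith

lemma sc_sum {ι : Type} (s : Finset ι) (g : ι → Tor n L → ℝ) (hg : ∀ c, RB (g c))
    (p : Fin n → ℤ) : scN (fun x => ∑ c ∈ s, g c x) p = ∑ c ∈ s, scN (g c) p := by
  unfold scN
  rw [← Finset.mul_sum, ← integral_finsetSum _ fun c _ => cint (hg c) p]
  congr 1
  refine integral_congr_ae (Filter.Eventually.of_forall fun y => ?_)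
  simp only
  push_cast
  rw [Finset.mul_sum]

lemma rb_add (h : RB u) (h' : RB w) : RB fun x => u x + w x := by
  obtain ⟨C, hC⟩ := h.bd
  obtain ⟨C', hC'⟩ := h'.bd
  exact ⟨h.meas.add h'.meas, C + C', fun x => (abs_add_le _ _).trans (add_le_add (hC x) (hC' x))⟩

lemma rb_smul (c : ℝ) (h : RB u) : RB fun x => c * u x := by
  obtain ⟨C, hC⟩ := h.bd
  refine ⟨h.meas.const_mul c, |c| * C, fun x => ?_⟩
  rw [abs_mul]
  exact mul_le_mul_of_nonneg_left (hC x) (abs_nonneg c)

lemma rb_shift (h : RB u) (a : Tor n L) : RB fun x => u (x + a) := by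
  obtain ⟨C, hC⟩ := h.bd
  exact ⟨h.meas.comp (measurable_add_const a), C, fun x => hC _⟩

/-- the second difference -/
def dd (u : Tor n L → ℝ) (a x : Tor n L) : ℝ := 2 * u x - u (x + a) - u (x - a)

lemma dd_eq (u : Tor n L → ℝ) (a : Tor n L) :
    dd u a = fun x => 2 * u x + ((-1) * u (x + a) + (-1) * u (x + -a)) := by
  funext x
  unfold dd
  rw [sub_eq_add_neg x a]
  ring

lemma rb_dd (h : RB u) (a : Tor n L) : RB (dd u a) := by
  rw [dd_eq]
  exact rb_add (rb_smul 2 h) (rb_add (rb_smul (-1) (rb_shift h a)) (rb_smul (-1) (rb_shift h (-a))))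

lemma sc_dd (h : RB u) (a : Tor n L) (p : Fin n → ℤ) :
    scN (dd u a) p = ((‖chrN L p a - 1‖ ^ 2 : ℝ) : ℂ) * scN u p := by
  have h1 : scN (dd u a) p = (2 - chrN L p a - (starRingEnd ℂ) (chrN L p a)) * scN u p := by
    rw [dd_eq, sc_add (rb_smul 2 h)
      (rb_add (rb_smul (-1) (rb_shift h a)) (rb_smul (-1) (rb_shift h (-a)))),
      sc_add (rb_smul (-1) (rb_shift h a)) (rb_smul (-1) (rb_shift h (-a))), sc_smul 2,
      sc_smul (-1), sc_smul (-1), sc_shift, sc_shift, (DPF.fouN n L).2.2.2.1]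
    push_cast
    ring
  rw [h1]
  congr 1
  have h2 := chr_mul DPF.fouN p a
  have h3 : ((‖chrN L p a - 1‖ ^ 2 : ℝ) : ℂ) =
      (starRingEnd ℂ) (chrN L p a - 1) * (chrN L p a - 1) := by
    rw [Complex.conj_mul']
    push_cast
    ring
  rw [h3, map_sub, map_one]
  linear_combination -h2

lemma shift_int (u : Tor n L → ℝ) (a : Tor n L) : ∫ x, u (x + a) = ∫ x, u x :=
  integral_add_right_eq_self u a

/-- summation by parts -/
lemma dd_int (h : RB u) (a : Tor n L) :
    ∫ x, u x * dd u a x = ∫ x, (u (x + a) - u x) ^ 2 := by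
  have i1 : Integrable fun x => u x ^ 2 := by
    have := (h.mul h).int
    refine this.congr (Filter.Eventually.of_forall fun x => ?_)
    simp only
    ring
  have i2 : Integrable fun x => u (x + a) ^ 2 := by
    have := ((rb_shift h a).mul (rb_shift h a)).int
    refine this.congr (Filter.Eventually.of_forall fun x => ?_)
    simp only
    ring
  have i3 : Integrable fun x => u x * u (x + a) := (h.mul (rb_shift h a)).int
  have i4 : Integrable fun x => u x * u (x - a) := by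
    have := (h.mul (rb_shift h (-a))).int
    refine this.congr (Filter.Eventually.of_forall fun x => ?_)
    simp only
    rw [← sub_eq_add_neg]
  have i5 : Integrable fun x => 2 * u x ^ 2 - u x * u (x + a) := (i1.const_mul 2).sub i3
  have i6 : Integrable fun x => u (x + a) ^ 2 - 2 * (u x * u (x + a)) := i2.sub (i3.const_mul 2)
  have e1 : ∫ x, u x * dd u a x = 2 * (∫ x, u x ^ 2) - (∫ x, u x * u (x + a)) -
      ∫ x, u x * u (x - a) := by
    rw [← integral_const_mul, ← integral_sub (i1.const_mul 2) i3,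
      ← integral_sub i5 i4]
    refine integral_congr_ae (Filter.Eventually.of_forall fun x => ?_)
    simp only [dd]
    ring
  have e2 : ∫ x, (u (x + a) - u x) ^ 2 = (∫ x, u (x + a) ^ 2) - 2 * (∫ x, u x * u (x + a)) +
      ∫ x, u x ^ 2 := by
    rw [← integral_const_mul, ← integral_sub i2 (i3.const_mul 2),
      ← integral_add i6 i1]
    refine integral_congr_ae (Filter.Eventually.of_forall fun x => ?_)
    simp only
    ring
  have e3 : ∫ x, u x * u (x - a) = ∫ x, u x * u (x + a) := by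
    rw [← shift_int (fun x => u x * u (x - a)) a]
    refine integral_congr_ae (Filter.Eventually.of_forall fun x => ?_)
    simp only
    rw [add_sub_cancel_right, mul_comm]
  have e4 : ∫ x, u (x + a) ^ 2 = ∫ x, u x ^ 2 := shift_int (fun x => u x ^ 2) a
  rw [e1, e2, e3, e4]
  ring

/-- the discretised kinetic energy of a mode -/
def kd (μ : ℝ) (k : ℕ) (p : Fin n → ℤ) : ℝ :=
  μ * 4 ^ k * ∑ c : Fin n, ‖chrN L p (ec L c ((2 : ℝ)⁻¹ ^ k)) - 1‖ ^ 2

lemma kd_nonneg {μ : ℝ} (hμ : 0 ≤ μ) (k : ℕ) (p : Fin n → ℤ) : 0 ≤ kd (L := L) μ k p := by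
  unfold kd
  exact mul_nonneg (by positivity) (Finset.sum_nonneg fun c _ => sq_nonneg _)

lemma kd_le {μ : ℝ} (hμ : 0 ≤ μ) (k : ℕ) (p : Fin n → ℤ) :
    kd (L := L) μ k p ≤ kapN μ L p := by
  have hL : 0 < L := Fact.out
  have hpi := Real.pi_pos
  unfold kd kapN
  have h1 : ∀ c : Fin n, ‖chrN L p (ec L c ((2 : ℝ)⁻¹ ^ k)) - 1‖ ^ 2 ≤
      4 * Real.pi ^ 2 / L ^ 2 / 4 ^ k * (p c : ℝ) ^ 2 := by
    intro c
    rw [(DPF.fouN n L).2.2.2.2.1]
    have e : 2 * Real.pi * Complex.I * (p c) * (((2 : ℝ)⁻¹ ^ k : ℝ) : ℂ) / L =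
        Complex.I * ((2 * Real.pi * (p c) * (2 : ℝ)⁻¹ ^ k / L : ℝ) : ℂ) := by
      push_cast
      ring
    rw [e]
    have h2 := Real.norm_exp_I_mul_ofReal_sub_one_le
      (x := 2 * Real.pi * (p c) * (2 : ℝ)⁻¹ ^ k / L)
    refine (pow_le_pow_left₀ (norm_nonneg _) h2 2).trans (le_of_eq ?_)
    rw [Real.norm_eq_abs, sq_abs, div_pow, mul_pow, mul_pow, mul_pow, ← pow_mul, mul_comm k 2,
      pow_mul]
    have e2 : ((2 : ℝ)⁻¹ ^ 2) ^ k = (4 ^ k)⁻¹ := by
      rw [← inv_pow]
      norm_num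
    rw [e2]
    field_simp
    ring
  calc μ * 4 ^ k * ∑ c : Fin n, ‖chrN L p (ec L c ((2 : ℝ)⁻¹ ^ k)) - 1‖ ^ 2
      ≤ μ * 4 ^ k * ∑ c : Fin n, 4 * Real.pi ^ 2 / L ^ 2 / 4 ^ k * (p c : ℝ) ^ 2 :=
        mul_le_mul_of_nonneg_left (Finset.sum_le_sum fun c _ => h1 c) (by positivity)
    _ = _ := by
        rw [← Finset.mul_sum]
        field_simp

end

theorem solf : S_SOLF := by
  intro n L _ μ m M k W f hμ hm hW hWM hS
  have hL : 0 < L := Fact.out
  obtain ⟨ω, hω⟩ : ∃ ω : Tor n L → ℝ, ω = fun x => 1 - f x := ⟨_, rfl⟩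
  have hωx : ∀ x, ω x = 1 - f x := fun x => by rw [hω]
  have hrf : RB f := ⟨hS.meas, 1, fun x => by
    rw [abs_of_nonneg (hS.mem x).1]
    exact (hS.mem x).2⟩
  have hrW : RB W := ⟨hW, M, fun x => by
    rw [abs_of_nonneg (hWM x).1]
    exact (hWM x).2⟩
  have hrω : RB ω := by
    refine ⟨?_, 1, fun x => ?_⟩
    · rw [hω]
      exact measurable_const.sub hS.meas
    · rw [hωx, abs_le]
      constructor <;> linarith [(hS.mem x).1, (hS.mem x).2]
  obtain ⟨e, he⟩ : ∃ e : Fin n → Tor n L, e = fun c => ec L c ((2 : ℝ)⁻¹ ^ k) := ⟨_, rfl⟩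
  have heq : ∀ x, W x * f x = 2 * m * ω x + 2 * μ * 4 ^ k * ∑ c, dd ω (e c) x := by
    intro x
    have h1 := hS.eq x
    have h2 : ∑ c : Fin n, (2 * f x - f (x + ec L c ((2 : ℝ)⁻¹ ^ k)) -
        f (x - ec L c ((2 : ℝ)⁻¹ ^ k))) = -∑ c, dd ω (e c) x := by
      rw [← Finset.sum_neg_distrib]
      refine Finset.sum_congr rfl fun c _ => ?_
      unfold dd
      rw [hωx, hωx, hωx, he]
      ring
    rw [h2, ← hωx] at h1
    linarith
  have hWf : (fun x => W x * f x) = fun x => 2 * m * ω x +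
      2 * μ * 4 ^ k * ∑ c, dd ω (e c) x := funext heq
  have hrdd : RB fun x => ∑ c, dd ω (e c) x := by
    classical
    have h1 : ∀ s : Finset (Fin n), RB fun x => ∑ c ∈ s, dd ω (e c) x := by
      intro s
      induction s using Finset.induction_on with
      | empty =>
        simp only [Finset.sum_empty]
        exact ⟨measurable_const, 0, fun x => by simp⟩
      | insert c s hc ih =>
        simp only [Finset.sum_insert hc]
        exact rb_add (rb_dd hrω (e c)) ih
    exact h1 Finset.univ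
  have hsc : ∀ p, scN (fun x => W x * f x) p = ((2 * (kd (L := L) μ k p + m) : ℝ) : ℂ) *
      scN ω p := by
    intro p
    rw [hWf, sc_add (rb_smul _ hrω) (rb_smul _ hrdd), sc_smul (2 * m), sc_smul (2 * μ * 4 ^ k),
      sc_sum Finset.univ (fun c => dd ω (e c)) (fun c => rb_dd hrω (e c))]
    have h1 : ∀ c, scN (dd ω (e c)) p = ((‖chrN L p (e c) - 1‖ ^ 2 : ℝ) : ℂ) * scN ω p :=
      fun c => sc_dd hrω (e c) p
    simp only [h1]
    rw [← Finset.sum_mul, ← Complex.ofReal_sum]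
    have h2 : kd (L := L) μ k p = μ * 4 ^ k * ∑ c, ‖chrN L p (e c) - 1‖ ^ 2 := by
      unfold kd
      rw [he]
    rw [h2]
    push_cast
    ring
  have hns : ∀ p, ‖scN (fun x => W x * f x) p‖ ^ 2 =
      4 * (kd (L := L) μ k p + m) ^ 2 * ‖scN ω p‖ ^ 2 := by
    intro p
    rw [hsc, norm_mul, mul_pow, Complex.norm_real, Real.norm_eq_abs, sq_abs]
    ring
  have hk0 : ∀ p : Fin n → ℤ, 0 ≤ kd (L := L) μ k p := fun p => kd_nonneg hμ.le k p
  have hkl : ∀ p : Fin n → ℤ, kd (L := L) μ k p ≤ kapN μ L p := fun p => kd_le hμ.le k p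
  constructor
  · intro B _
    have h1 : ∑ p ∈ B, ‖scN (fun x => W x * f x) p‖ ^ 2 / (kapN μ L p + m) ≤
        ∑ p ∈ B, 4 * (kd (L := L) μ k p + m) * ‖scN ω p‖ ^ 2 := by
      refine Finset.sum_le_sum fun p _ => ?_
      have h2 := hk0 p
      have h3 := hkl p
      rw [hns, div_le_iff₀ (by linarith)]
      have h4 : 0 ≤ (kd (L := L) μ k p + m) * ‖scN ω p‖ ^ 2 := by positivity
      nlinarith
    have h2 : ∑ p ∈ B, (kd (L := L) μ k p + m) * ‖scN ω p‖ ^ 2 ≤
        m * ((L ^ n)⁻¹ * ∫ x, ω x ^ 2) + μ * 4 ^ k * ∑ c,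
          ((L ^ n)⁻¹ * ∫ x, (ω (x + e c) - ω x) ^ 2) := by
      have h3 : ∀ c, ∑ p ∈ B, ‖chrN L p (e c) - 1‖ ^ 2 * ‖scN ω p‖ ^ 2 ≤
          (L ^ n)⁻¹ * ∫ x, (ω (x + e c) - ω x) ^ 2 := by
        intro c
        have h4 : RB fun x => ω (x + e c) + (-1) * ω x :=
          rb_add (rb_shift hrω (e c)) (rb_smul (-1) hrω)
        have h5 := bes h4 B
        have h6 : ∀ p, ‖scN (fun x => ω (x + e c) + (-1) * ω x) p‖ ^ 2 =
            ‖chrN L p (e c) - 1‖ ^ 2 * ‖scN ω p‖ ^ 2 := by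
          intro p
          rw [sc_add (rb_shift hrω (e c)) (rb_smul (-1) hrω), sc_shift, sc_smul (-1),
            ← mul_pow, ← norm_mul]
          congr 2
          push_cast
          ring
        simp only [h6] at h5
        refine h5.trans (le_of_eq ?_)
        congr 1
        refine integral_congr_ae (Filter.Eventually.of_forall fun x => ?_)
        simp only
        ring
      have h4 : ∑ p ∈ B, (kd (L := L) μ k p + m) * ‖scN ω p‖ ^ 2 =
          m * ∑ p ∈ B, ‖scN ω p‖ ^ 2 + μ * 4 ^ k * ∑ c, ∑ p ∈ B,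
            ‖chrN L p (e c) - 1‖ ^ 2 * ‖scN ω p‖ ^ 2 := by
        rw [Finset.sum_comm, Finset.mul_sum, Finset.mul_sum, ← Finset.sum_add_distrib]
        refine Finset.sum_congr rfl fun p _ => ?_
        unfold kd
        rw [← Finset.sum_mul, he]
        ring
      rw [h4]
      refine add_le_add (mul_le_mul_of_nonneg_left (bes hrω B) hm.le)
        (mul_le_mul_of_nonneg_left (Finset.sum_le_sum fun c _ => h3 c) (by positivity))
    have h3 : ∫ x, W x * f x * ω x = 2 * m * (∫ x, ω x ^ 2) + 2 * μ * 4 ^ k * ∑ c,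
        ∫ x, (ω (x + e c) - ω x) ^ 2 := by
      have h4 : ∀ c, ∫ x, (ω (x + e c) - ω x) ^ 2 = ∫ x, ω x * dd ω (e c) x :=
        fun c => (dd_int hrω (e c)).symm
      simp only [h4]
      rw [← integral_finsetSum _ fun c _ => (hrω.mul (rb_dd hrω (e c))).int,
        ← integral_const_mul, ← integral_const_mul, ← integral_add]
      · refine integral_congr_ae (Filter.Eventually.of_forall fun x => ?_)
        simp only
        rw [heq, ← Finset.mul_sum]
        ring
      · refine Integrable.const_mul ?_ _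
        refine (hrω.mul hrω).int.congr (Filter.Eventually.of_forall fun x => ?_)
        simp only
        ring
      · exact (integrable_finsetSum _ fun c _ => (hrω.mul (rb_dd hrω (e c))).int).const_mul _
    have h4 : ∫ x, W x * f x * ω x = (∫ x, W x * f x) - ∫ x, W x * f x ^ 2 := by
      rw [← integral_sub (hrW.mul hrf).int]
      · refine integral_congr_ae (Filter.Eventually.of_forall fun x => ?_)
        simp only
        rw [hωx]
        ring
      · refine ((hrW.mul hrf).mul hrf).int.congr (Filter.Eventually.of_forall fun x => ?_)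
        simp only
        ring
    have h5 : ∑ p ∈ B, 4 * (kd (L := L) μ k p + m) * ‖scN ω p‖ ^ 2 =
        4 * ∑ p ∈ B, (kd (L := L) μ k p + m) * ‖scN ω p‖ ^ 2 := by
      rw [Finset.mul_sum]
      exact Finset.sum_congr rfl fun p _ => by ring
    have h6 : m * ((L ^ n)⁻¹ * ∫ x, ω x ^ 2) + μ * 4 ^ k * ∑ c,
        ((L ^ n)⁻¹ * ∫ x, (ω (x + e c) - ω x) ^ 2) =
        (L ^ n)⁻¹ * ((∫ x, W x * f x) - ∫ x, W x * f x ^ 2) / 2 := by
      rw [← h4, h3, ← Finset.mul_sum]
      ring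
    rw [h6] at h2
    rw [h5] at h1
    refine h1.trans ?_
    have h7 := mul_le_mul_of_nonneg_left h2 (show (0 : ℝ) ≤ 4 by norm_num)
    refine h7.trans (le_of_eq ?_)
    ring
  · intro B
    have h1 : ∑ p ∈ B, ‖scN (fun x => W x * f x) p‖ ^ 2 / (4 * (kapN μ L p + m) ^ 2) ≤
        ∑ p ∈ B, ‖scN ω p‖ ^ 2 := by
      refine Finset.sum_le_sum fun p _ => ?_
      have h2 := hk0 p
      have h3 := hkl p
      have h5 : 0 < kapN μ L p + m := by linarith
      rw [hns, div_le_iff₀ (by positivity)]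
      have h4 : (kd (L := L) μ k p + m) ^ 2 ≤ (kapN μ L p + m) ^ 2 :=
        pow_le_pow_left₀ (by linarith) (by linarith) 2
      nlinarith [sq_nonneg ‖scN ω p‖]
    refine h1.trans ((bes hrω B).trans (le_of_eq ?_))
    simp only [hωx]

end

end Pool.Agent.E8helper48.D3
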